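import Pool.Agent.TH613.SG.Main

/-!
# The Singer conjecture for Poincare duality groups: asymptotic and sublinear forms

`T : DualityGroups` records a class of Poincare duality groups which is closed under products and
contains the fundamental groups of the closed oriented surfaces of positive genus (for example all
Poincare duality groups, or all fundamental groups of closed aspherical manifolds), with dimension
and L²-Betti numbers `b_i(Γ) ≥ 0`, the Künneth formula, and the first L²-Betti number of surface
groups.

`s : Size T` is any size with `size (Γ × π₁ Σ) ≤ K(Γ) (g + 1)` for `Σ` a surface of genus `g + 1`,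
for example the least total number of generators of a finite projective resolution of the trivial
module `ℤ`; for it, `b_i(Γ) ≤ size(Γ)` is trivial.

Theorem. The Singer conjecture holds for all groups in the class if and only if for every `ε > 0`
there are arbitrarily large even dimensions `n` with the following property: for each `i` with
`|2 i - n| ≥ ε n` and each `δ > 0` there is `C` with `b_i(Γ) ≤ δ size(Γ) + C` for all groups `Γ` of
dimension `n` in the class.

Proof. If `b_i(Γ) ≠ 0` with `2 i ≠ dim Γ`, look at products of a large power of `Γ` with surface
groups, the last one of large genus.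
-/

set_option autoImplicit false

universe u

namespace Pool.Agent.Results.MP_984acc_gt.AsymptoticSinger

open Pool.Agent.TH613.SG

/-- The Singer conjecture for Poincare duality groups is equivalent to a sublinear bound for the
L²-Betti numbers in degrees far from the middle, in arbitrarily large even dimensions. -/
theorem result (T : DualityGroups.{u}) (s : Size T) :
    (∀ (Γ : T.Grp) (i : ℕ), 2 * i ≠ T.dim Γ → T.b Γ i = 0) ↔
      ∀ ε : ℝ, 0 < ε → ∀ N : ℕ, ∃ n : ℕ, N ≤ n ∧ Even n ∧ ∀ i : ℕ,
        ε * (n : ℝ) ≤ |2 * (i : ℝ) - (n : ℝ)| → ∀ δ : ℝ, 0 < δ → ∃ C : ℝ, ∀ Γ : T.Grp,
          T.dim Γ = n → T.b Γ i ≤ δ * s.size Γ + C :=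
  main s

end Pool.Agent.Results.MP_984acc_gt.AsymptoticSinger
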